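import Pool.Agent.V11105.FlipsThree

/-!
Positive answer to Q1 of MP_83934b_an: the surjection from the group of measure preserving
permutations of the circle onto the group of measure preserving transformations up to null sets
splits over the group of interval exchanges with flips.
-/

open Pool.Agent.V11105.Flips

theorem Pool.Agent.Results.MP_83934b_an.FlipsSplitting.result :
    ∃ σ : IET →* Ghat, (QuotientGroup.mk' NullSub).comp σ = iota :=
  exists_splitting
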